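import Pool.Agent.H121.Z987.Iface

/-! # Z-F4-L2: Graf's bound of the second moment by a fractional moment (one variable) -/

set_option autoImplicit false

open scoped ENNReal
open Filter MeasureTheory

namespace Pool.Agent.H410.Z987

/-- `‖1 + lam v a‖² = (a_i² / |a|²) (1 + ((v - t)/η)²)` -/
theorem normSq_eq (lam v : ℝ) (a : ℂ) (hl : 0 < lam) (ha : 0 < a.im) :
    ‖1 + (lam : ℂ) * (v : ℂ) * a‖ ^ 2 =
      (a.im ^ 2 / ‖a‖ ^ 2) * (1 + ((v - (-a.re / (lam * ‖a‖ ^ 2))) / (a.im / (lam * ‖a‖ ^ 2))) ^ 2) := by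
  have hn : ‖a‖ ^ 2 = a.re ^ 2 + a.im ^ 2 := by
    rw [← Complex.normSq_eq_norm_sq, Complex.normSq_apply]; ring
  have hn0 : 0 < ‖a‖ ^ 2 := by rw [hn]; positivity
  have h1 : ‖1 + (lam : ℂ) * (v : ℂ) * a‖ ^ 2 = (1 + lam * v * a.re) ^ 2 + (lam * v * a.im) ^ 2 := by
    rw [← Complex.normSq_eq_norm_sq, Complex.normSq_apply]
    simp
    ring
  rw [h1]
  generalize ‖a‖ ^ 2 = N at *
  subst hn
  have ha' : a.im ≠ 0 := ha.ne'
  have hl' : lam ≠ 0 := hl.ne'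
  have hN' : a.re ^ 2 + a.im ^ 2 ≠ 0 := hn0.ne'
  field_simp
  ring

theorem inv_integrable (t η : ℝ) (hη : 0 < η) :
    Integrable (fun v : ℝ => (1 + ((v - t) / η) ^ 2)⁻¹) := by
  have h := (integrable_inv_one_add_sq.comp_div (R := η) hη.ne').comp_sub_right t
  exact h

theorem inv_integral (t η : ℝ) (hη : 0 < η) :
    ∫ v : ℝ, (1 + ((v - t) / η) ^ 2)⁻¹ = η * Real.pi := by
  have h1 := integral_sub_right_eq_self (fun v : ℝ => (1 + (v / η) ^ 2)⁻¹) (μ := volume) t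
  rw [h1]
  have h2 := MeasureTheory.Measure.integral_comp_div (fun v : ℝ => (1 + v ^ 2)⁻¹) η
  rw [h2, integral_univ_inv_one_add_sq, abs_of_pos hη]
  rfl

theorem upper1 (D lam : ℝ) (hD : 0 < D) (hl : 0 < lam) (μ : Measure ℝ)
    (hμ : ∀ A : Set ℝ, MeasurableSet A → μ A ≤ ENNReal.ofReal D * volume A)
    (a g : ℂ) (ε : ℝ) (hε : 0 < ε) (ha : 0 < a.im) :
    ∫⁻ v : ℝ, ENNReal.ofReal (ε * ‖g / (1 + (lam : ℂ) * (v : ℂ) * a)‖ ^ 2) ∂μ ≤
      ENNReal.ofReal ((Real.pi * D / lam) * (ε * ‖g‖ ^ 2 / a.im)) := by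
  have hle : μ ≤ ENNReal.ofReal D • volume := by
    rw [Measure.le_iff]
    intro A hA
    simpa using hμ A hA
  refine (lintegral_mono' hle le_rfl).trans ?_
  rw [lintegral_smul_measure]
  have hn : 0 < ‖a‖ ^ 2 := by
    have : a ≠ 0 := fun h => by simp [h] at ha
    positivity
  set η := a.im / (lam * ‖a‖ ^ 2) with hη
  set t := -a.re / (lam * ‖a‖ ^ 2) with ht
  have hη0 : 0 < η := by positivity
  have hfun : ∀ v : ℝ, ε * ‖g / (1 + (lam : ℂ) * (v : ℂ) * a)‖ ^ 2 =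
      (ε * ‖g‖ ^ 2 * (‖a‖ ^ 2 / a.im ^ 2)) * (1 + ((v - t) / η) ^ 2)⁻¹ := by
    intro v
    rw [norm_div, div_pow, normSq_eq lam v a hl ha]
    rw [← hη, ← ht]
    have h1 : (1 + ((v - t) / η) ^ 2) ≠ 0 := by positivity
    have h2 : a.im ≠ 0 := ha.ne'
    have h3 : ‖a‖ ≠ 0 := fun h => by simp [h] at hn
    field_simp
  have hint : Integrable (fun v : ℝ => (ε * ‖g‖ ^ 2 * (‖a‖ ^ 2 / a.im ^ 2)) *
      (1 + ((v - t) / η) ^ 2)⁻¹) := (inv_integrable t η hη0).const_mul _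
  have hval : ∫⁻ v : ℝ, ENNReal.ofReal (ε * ‖g / (1 + (lam : ℂ) * (v : ℂ) * a)‖ ^ 2) =
      ENNReal.ofReal ((ε * ‖g‖ ^ 2 * (‖a‖ ^ 2 / a.im ^ 2)) * (η * Real.pi)) := by
    simp_rw [hfun]
    rw [← ofReal_integral_eq_lintegral_ofReal hint (Eventually.of_forall fun v => by positivity)]
    rw [integral_const_mul, inv_integral t η hη0]
  rw [hval, smul_eq_mul, ← ENNReal.ofReal_mul hD.le]
  refine ENNReal.ofReal_le_ofReal (le_of_eq ?_)
  rw [hη]
  have h2 : a.im ≠ 0 := ha.ne'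
  have h3 : ‖a‖ ≠ 0 := fun h => by simp [h] at hn
  field_simp

theorem upper2 (lam : ℝ) (hl : 0 < lam) (μ : Measure ℝ) [IsProbabilityMeasure μ]
    (hv : ∀ᵐ v ∂μ, |v| ≤ 1) (a g : ℂ) (ε : ℝ) (hε : 0 < ε) (hε1 : ε ≤ 1)
    (hs : lam * ‖a‖ ≤ 1 / 2) :
    ∫⁻ v : ℝ, ENNReal.ofReal (ε * ‖g / (1 + (lam : ℂ) * (v : ℂ) * a)‖ ^ 2) ∂μ ≤
      ENNReal.ofReal (4 * ‖g‖ ^ 2) := by
  have h1 : ∫⁻ v : ℝ, ENNReal.ofReal (ε * ‖g / (1 + (lam : ℂ) * (v : ℂ) * a)‖ ^ 2) ∂μ ≤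
      ∫⁻ _ : ℝ, ENNReal.ofReal (4 * ‖g‖ ^ 2) ∂μ := by
    refine lintegral_mono_ae ?_
    filter_upwards [hv] with v hv
    refine ENNReal.ofReal_le_ofReal ?_
    have h2 : ‖(lam : ℂ) * (v : ℂ) * a‖ ≤ 1 / 2 := by
      rw [norm_mul, norm_mul, Complex.norm_real, Complex.norm_real, Real.norm_eq_abs,
        Real.norm_eq_abs, abs_of_pos hl]
      calc lam * |v| * ‖a‖ ≤ lam * 1 * ‖a‖ := by gcongr
        _ ≤ 1 / 2 := by linarith
    have h3 : 1 / 2 ≤ ‖1 + (lam : ℂ) * (v : ℂ) * a‖ := by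
      have h4 : ‖(1 : ℂ)‖ - ‖-((lam : ℂ) * (v : ℂ) * a)‖ ≤ ‖(1 : ℂ) - -((lam : ℂ) * (v : ℂ) * a)‖ :=
        norm_sub_norm_le _ _
      rw [norm_neg, sub_neg_eq_add, norm_one] at h4
      linarith
    have h5 : ‖g / (1 + (lam : ℂ) * (v : ℂ) * a)‖ ≤ 2 * ‖g‖ := by
      rw [norm_div, div_le_iff₀ (by linarith)]
      nlinarith [norm_nonneg g]
    calc ε * ‖g / (1 + (lam : ℂ) * (v : ℂ) * a)‖ ^ 2 ≤ 1 * (2 * ‖g‖) ^ 2 := by gcongr
      _ = 4 * ‖g‖ ^ 2 := by ring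
  refine h1.trans ?_
  rw [lintegral_const, measure_univ, mul_one]

theorem lower (s lam : ℝ) (hs : 0 < s) (hl : 0 < lam) (μ : Measure ℝ) [IsProbabilityMeasure μ]
    (hv : ∀ᵐ v ∂μ, |v| ≤ 1) (a g : ℂ) (ha : 0 < a.im) :
    ENNReal.ofReal ((‖g‖ / (1 + lam * ‖a‖)) ^ s) ≤
      ∫⁻ v : ℝ, ENNReal.ofReal (‖g / (1 + (lam : ℂ) * (v : ℂ) * a)‖ ^ s) ∂μ := by
  have h1 : ∫⁻ _ : ℝ, ENNReal.ofReal ((‖g‖ / (1 + lam * ‖a‖)) ^ s) ∂μ ≤
      ∫⁻ v : ℝ, ENNReal.ofReal (‖g / (1 + (lam : ℂ) * (v : ℂ) * a)‖ ^ s) ∂μ := by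
    refine lintegral_mono_ae ?_
    filter_upwards [hv] with v hv
    refine ENNReal.ofReal_le_ofReal ?_
    refine Real.rpow_le_rpow (by positivity) ?_ hs.le
    rw [norm_div]
    have h2 : ‖(1 : ℂ) + (lam : ℂ) * (v : ℂ) * a‖ ≤ 1 + lam * ‖a‖ := by
      refine (norm_add_le _ _).trans ?_
      rw [norm_one, norm_mul, norm_mul, Complex.norm_real, Complex.norm_real, Real.norm_eq_abs,
        Real.norm_eq_abs, abs_of_pos hl]
      have : lam * |v| * ‖a‖ ≤ lam * 1 * ‖a‖ := by gcongr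
      linarith
    have h3 : 0 < ‖(1 : ℂ) + (lam : ℂ) * (v : ℂ) * a‖ := by
      rw [norm_pos_iff]
      intro h0
      have h4 := congrArg Complex.im h0
      have h5 := congrArg Complex.re h0
      simp at h4 h5
      rcases h4 with h4 | h4
      · rcases h4 with h4 | h4
        · exact hl.ne' h4
        · subst h4
          simp at h5
      · exact ha.ne' h4
    gcongr
  refine le_trans ?_ h1
  rw [lintegral_const, measure_univ, mul_one]

theorem graf : Pool.Agent.H121.Z987.S_graf := by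
  intro s D lam hs hs1 hD hl
  have hπ : 0 < Real.pi * D / lam := by have := Real.pi_pos; positivity
  refine ⟨(3 / 2) * (4 + Real.pi * D / lam) + (Real.pi * D / lam) * (3 * lam) ^ s, by positivity, ?_⟩
  intro μ _ hv hμ a g ε hε hε1 ha hg haa
  set C := (3 / 2) * (4 + Real.pi * D / lam) + (Real.pi * D / lam) * (3 * lam) ^ s with hC
  have hC0 : 0 < C := by positivity
  have hlow := lower s lam hs hl μ hv a g ha
  have hna : 0 < ‖a‖ := by
    rw [norm_pos_iff]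
    intro h
    simp [h] at ha
  have key : ∫⁻ v : ℝ, ENNReal.ofReal (ε * ‖g / (1 + (lam : ℂ) * (v : ℂ) * a)‖ ^ 2) ∂μ ≤
      ENNReal.ofReal (C * (‖g‖ / (1 + lam * ‖a‖)) ^ s) := by
    have hgpow : (‖g‖ / (1 + lam * ‖a‖)) ^ s = ‖g‖ ^ s / (1 + lam * ‖a‖) ^ s :=
      Real.div_rpow (norm_nonneg g) (by positivity) s
    have hu1 := upper1 D lam hD hl μ hμ a g ε hε ha
    have hR1 : ε * ‖g‖ ^ 2 / a.im ≤ 1 := by rw [div_le_one ha]; exact hg
    rcases le_or_gt (lam * ‖a‖) (1 / 2) with hcase | hcase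
    · -- case 1
      have hpow : (1 + lam * ‖a‖) ^ s ≤ 3 / 2 := by
        calc (1 + lam * ‖a‖) ^ s ≤ (1 + lam * ‖a‖) ^ (1 : ℝ) :=
              Real.rpow_le_rpow_of_exponent_le (by nlinarith) hs1.le
          _ ≤ 3 / 2 := by rw [Real.rpow_one]; linarith
      have hpow0 : 0 < (1 + lam * ‖a‖) ^ s := by positivity
      have hB : (4 + Real.pi * D / lam) * ‖g‖ ^ s ≤ C * (‖g‖ / (1 + lam * ‖a‖)) ^ s := by
        rw [hgpow, ← mul_div_assoc, le_div_iff₀ hpow0]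
        have h1 : (4 + Real.pi * D / lam) * ‖g‖ ^ s * (1 + lam * ‖a‖) ^ s ≤
            (4 + Real.pi * D / lam) * ‖g‖ ^ s * (3 / 2) := by gcongr
        have h2 : 0 ≤ (Real.pi * D / lam) * (3 * lam) ^ s * ‖g‖ ^ s := by positivity
        rw [hC]
        nlinarith
      rcases le_or_gt ‖g‖ 1 with hg1 | hg1
      · refine (upper2 lam hl μ hv a g ε hε hε1 hcase).trans (ENNReal.ofReal_le_ofReal ?_)
        refine le_trans ?_ hB
        rcases eq_or_lt_of_le (norm_nonneg g) with hg0 | hg0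
        · rw [← hg0, Real.zero_rpow hs.ne']
          simp
        · have h3 : ‖g‖ ^ 2 ≤ ‖g‖ ^ s := by
            rw [← Real.rpow_natCast]
            exact Real.rpow_le_rpow_of_exponent_ge hg0 hg1 (by push_cast; linarith)
          have h4 : 0 ≤ (Real.pi * D / lam) * ‖g‖ ^ s := by positivity
          nlinarith
      · refine hu1.trans (ENNReal.ofReal_le_ofReal ?_)
        refine le_trans ?_ hB
        have h3 : 1 ≤ ‖g‖ ^ s := Real.one_le_rpow hg1.le hs.le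
        have h4 : (Real.pi * D / lam) * (ε * ‖g‖ ^ 2 / a.im) ≤ (Real.pi * D / lam) * 1 := by gcongr
        nlinarith
    · -- case 2
      refine hu1.trans (ENNReal.ofReal_le_ofReal ?_)
      have hR2 : ε * ‖g‖ ^ 2 / a.im ≤ (‖g‖ / ‖a‖) ^ 2 := by
        rw [div_pow, div_le_div_iff₀ ha (by positivity)]
        nlinarith [sq_nonneg ‖g‖]
      have hR : ε * ‖g‖ ^ 2 / a.im ≤ (‖g‖ / ‖a‖) ^ s := by
        rcases le_or_gt (‖g‖ / ‖a‖) 1 with h1 | h1
        · rcases eq_or_lt_of_le (norm_nonneg g) with hg0 | hg0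
          · rw [← hg0]
            simp only [zero_div]
            rw [Real.zero_rpow hs.ne']
            simp
          · refine hR2.trans ?_
            rw [← Real.rpow_natCast]
            exact Real.rpow_le_rpow_of_exponent_ge (by positivity) h1 (by push_cast; linarith)
        · exact hR1.trans (Real.one_le_rpow h1.le hs.le)
      have h5 : (‖g‖ / ‖a‖) ^ s ≤ (3 * lam) ^ s * (‖g‖ / (1 + lam * ‖a‖)) ^ s := by
        rw [← Real.mul_rpow (by positivity) (by positivity)]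
        refine Real.rpow_le_rpow (by positivity) ?_ hs.le
        rw [← mul_div_assoc, div_le_div_iff₀ hna (by positivity)]
        nlinarith [norm_nonneg g, mul_nonneg (norm_nonneg g) hna.le]
      calc (Real.pi * D / lam) * (ε * ‖g‖ ^ 2 / a.im)
          ≤ (Real.pi * D / lam) * ((3 * lam) ^ s * (‖g‖ / (1 + lam * ‖a‖)) ^ s) := by
            gcongr
            exact hR.trans h5
        _ ≤ C * (‖g‖ / (1 + lam * ‖a‖)) ^ s := by
            rw [hC]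
            have : 0 ≤ (3 / 2) * (4 + Real.pi * D / lam) * (‖g‖ / (1 + lam * ‖a‖)) ^ s := by
              positivity
            nlinarith
  refine key.trans ?_
  rw [ENNReal.ofReal_mul hC0.le]
  gcongr

end Pool.Agent.H410.Z987
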